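import Pool.Agent.H28.TanNormal

set_option autoImplicit false

namespace Pool.Agent.Results.MP_24547c_co.SSNormal

open Pool.Agent.H28.TanBlock

/-- Every supersolvable simple `k`-block none of whose proper restrictions is a `k`-block (in
particular every supersolvable tangential `k`-block) is normal. -/
theorem result (F : Type) [Field F] [Fintype F] (k : ℕ) (α : Type) [Fintype α] (n : ℕ)
    (v : α → Fin n → F) (hs : Simple v) (hc : ¬ CritLe v ∅ ∅ k)
    (hmin : ∀ D : Set α, D.Nonempty → CritLe v ∅ D k)
    (hS : Supersolvable v) : Normal v (Fintype.card F ^ k + 1) := by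
  refine normal_of_mod v k hs hc hmin ?_
  obtain ⟨H, h, -⟩ := hS
  have h0 : rk v Set.univ ≠ 0 := by
    intro h0
    have h1 : Submodule.span F (v '' Set.univ) = ⊥ := Submodule.finrank_eq_zero.1 h0
    refine hc ⟨fun _ => 0, fun _ _ _ => rfl, fun e _ _ => ?_⟩
    have h2 : v e ∈ Submodule.span F (v '' Set.univ) := Submodule.subset_span ⟨e, trivial, rfl⟩
    rw [h1] at h2
    exact absurd h2 (hs.1 e)
  have := h (rk v Set.univ - 1) (by omega)
  exact ⟨_, this.1, by rw [this.2]; omega⟩

end Pool.Agent.Results.MP_24547c_co.SSNormal
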